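import Pool.Agent.H53.PNF.D
import Pool.Agent.H61.NF.IRL2
import Pool.Agent.H88.PRK.CPLK

/-!
# PNF, row DYA: the completions above two
-/

set_option autoImplicit false

namespace Pool.PNF

open Polynomial NumberField IsDedekindDomain Pool.HYP Pool.TOW Pool.AVS Pool.T1 Pool.NF Pool.PRK

namespace DYA2

variable {L : Type} [Field L] {O : ValuationSubring L}

/-- From a uniformizer to `LocW`. -/
theorem locw [IsDiscreteValuationRing O] (π : L) (hπ : π ∈ O) (hπ' : π⁻¹ ∉ O)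
    (hunif : ∀ z : L, z ∈ O → z⁻¹ ∉ O → z / π ∈ O) : UD.LocW L O π := by
  have hπ0 : π ≠ 0 := by
    rintro rfl
    apply hπ'
    rw [inv_zero]
    exact O.zero_mem
  have hmax : IsLocalRing.maximalIdeal O = Ideal.span {(⟨π, hπ⟩ : O)} := by
    apply le_antisymm
    · intro z hz
      rw [Ideal.mem_span_singleton]
      have hz1 : ¬ IsUnit z := (IsLocalRing.mem_maximalIdeal _).1 hz
      by_cases hz0 : (z : L) = 0
      · have : z = 0 := Subtype.ext hz0
        rw [this]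
        exact dvd_zero _
      · have hz2 : (z : L)⁻¹ ∉ O := fun h => hz1 ((Cplk88.unit_iff z).2 ⟨h, hz0⟩)
        refine ⟨⟨(z : L) / π, hunif z z.2 hz2⟩, Subtype.ext ?_⟩
        change (z : L) = π * ((z : L) / π)
        field_simp
    · rw [Ideal.span_le, Set.singleton_subset_iff]
      exact (IsLocalRing.mem_maximalIdeal _).2 fun h => hπ' ((Cplk88.unit_iff _).1 h).1
  have hirr : Irreducible (⟨π, hπ⟩ : O) :=
    IsDiscreteValuationRing.irreducible_of_span_eq_maximalIdeal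
      _ (fun h => hπ0 (congrArg (fun z : O => (z : L)) h)) hmax
  have harch : ∀ z : O, z ≠ 0 → ∃ n : ℤ, (z : L) / π ^ n ∈ O ∧ ((z : L) / π ^ n)⁻¹ ∈ O := by
    intro z hz
    obtain ⟨n, u, hu⟩ := IsDiscreteValuationRing.eq_unit_mul_pow_irreducible hz hirr
    refine ⟨n, ?_⟩
    have h1 : (z : L) / π ^ (n : ℤ) = ((u : O) : L) := by
      rw [hu]
      change ((u : O) : L) * π ^ n / π ^ (n : ℤ) = _
      rw [zpow_natCast]
      field_simp
    rw [h1]
    exact ⟨(u : O).2, ((Cplk88.unit_iff _).1 u.isUnit).1⟩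
  refine ⟨hπ0, hπ, ?_, ?_⟩
  · intro x hx hx0
    refine ⟨hunif x hx, fun h h' => hπ' ?_⟩
    have : π⁻¹ = x⁻¹ * (x / π) := by field_simp
    rw [this]
    exact mul_mem h' h
  · intro x hx0
    rcases O.mem_or_inv_mem x with h | h
    · exact harch ⟨x, h⟩ (fun h' => hx0 (congrArg (fun z : O => (z : L)) h'))
    · obtain ⟨n, hn1, hn2⟩ := harch ⟨x⁻¹, h⟩
        (fun h' => inv_ne_zero hx0 (congrArg (fun z : O => (z : L)) h'))
      refine ⟨-n, ?_⟩
      have h1 : x / π ^ (-n) = (x⁻¹ / π ^ n)⁻¹ := by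
        rw [zpow_neg]
        field_simp
      rw [h1, inv_inv]
      exact ⟨hn2, hn1⟩

end DYA2

open DYA2 in
/-- **DYA.** -/
theorem dya : DYAStmt := by
  intro K _ _ L _ O ι hC h2
  have hdvr := hC.dvr
  obtain ⟨P, hP2, hmem⟩ := IRL61.exists_prime (K := K) (ι := ι) h2
  obtain ⟨ϖ, hϖ1, hϖ2⟩ := Ideal.exists_mem_pow_notMem_pow_succ P.asIdeal P.ne_bot P.isPrime.ne_top 1
  rw [pow_one] at hϖ1
  obtain ⟨⟨OP, hOP, ⟨hu1, hu2, hu3, hu4⟩, hval⟩, hdvd, hres⟩ := vqb (𝓞 K) K P ϖ hϖ1 hϖ2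
  obtain ⟨w, hw⟩ : ∃ w : K, w = algebraMap (𝓞 K) K ϖ := ⟨_, rfl⟩
  rw [← hw] at hu1 hu2 hu3 hu4 hval hdvd hres
  have hOPm : ∀ x : K, x ∈ OP ↔ x ∈ RP K P := by
    intro x
    rw [← hOP]
    rfl
  have hcop : ∀ m : 𝓞 K, m ∉ P.asIdeal → O.valuation (ι (algebraMap (𝓞 K) K m)) = 1 := by
    intro m hm
    apply le_antisymm
    · exact (ValuationSubring.valuation_le_one_iff O _).2 (IRL61.int_mem m)
    · exact not_lt.1 fun h => hm ((hmem m).2 h)
  have hA : ∀ x : K, x ∈ RP K P → ι x ∈ O := by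
    rintro x ⟨m, hm, a, ha⟩
    rw [← ValuationSubring.valuation_le_one_iff]
    have e1 := congrArg (fun z => O.valuation (ι z)) ha
    simp only [map_mul] at e1
    rw [hcop m hm, one_mul] at e1
    rw [e1]
    exact (ValuationSubring.valuation_le_one_iff O _).2 (IRL61.int_mem a)
  have hwlt : O.valuation (ι w) < 1 := by
    rw [hw]
    exact (hmem ϖ).1 hϖ1
  have hB : ∀ x : K, ι x ∈ O → x ∈ RP K P := by
    intro x hx
    rw [← hOPm]
    by_contra hc
    have hx0 : x ≠ 0 := by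
      rintro rfl
      exact hc OP.zero_mem
    have h3 : x⁻¹ ∈ OP := (OP.mem_or_inv_mem x).resolve_left hc
    have h4 := hu4 x⁻¹ h3 (by rw [inv_inv]; exact hc)
    have h5 := hA _ ((hOPm _).1 h4)
    have h6 : O.valuation (ι x⁻¹) < 1 := by
      have e1 : x⁻¹ = w * (x⁻¹ / w) := by field_simp
      rw [e1, map_mul, map_mul]
      exact mul_lt_one_of_lt_of_le hwlt ((ValuationSubring.valuation_le_one_iff O _).2 h5)
    have h7 : O.valuation (ι x) ≤ 1 := (ValuationSubring.valuation_le_one_iff O _).2 hx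
    have h8 : O.valuation (ι x⁻¹) * O.valuation (ι x) = 1 := by
      rw [← map_mul, ← map_mul, inv_mul_cancel₀ hx0, map_one, map_one]
    have h9 := mul_lt_one_of_lt_of_le h6 h7
    rw [h8] at h9
    exact lt_irrefl _ h9
  have hmemR : ∀ x : K, ι x ∈ O ↔ x ∈ RP K P := fun x => ⟨hB x, hA x⟩
  have hι0 : ι w ≠ 0 := (_root_.map_ne_zero ι).2 hu1
  have hwO : ι w ∈ O := (ValuationSubring.valuation_le_one_iff O _).1 hwlt.le
  have hwO' : (ι w)⁻¹ ∉ O := by
    rw [← map_inv₀, hmemR, ← hOPm]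
    exact hu3
  have hval' : ∀ x : K, x ≠ 0 → ∃ n : ℤ, ι (x / w ^ n) ∈ O ∧ (ι (x / w ^ n))⁻¹ ∈ O := by
    intro x hx
    obtain ⟨n, -, hn1, hn2⟩ := hval x hx
    refine ⟨n, hA _ ((hOPm _).1 hn1), ?_⟩
    rw [← map_inv₀]
    exact hA _ ((hOPm _).1 hn2)
  have hunif : ∀ z : L, z ∈ O → z⁻¹ ∉ O → z / ι w ∈ O := by
    intro z hz hz'
    by_cases hz0 : z = 0
    · rw [hz0, zero_div]
      exact O.zero_mem
    obtain ⟨x, hx⟩ := hC.dense z (z * ι w) (mul_ne_zero hz0 hι0)
    obtain ⟨v, hv⟩ : ∃ v : L, v = (z - ι x) / (z * ι w) := ⟨_, rfl⟩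
    rw [← hv] at hx
    obtain ⟨h3, h4, h5⟩ := Cplk88.one_sub hwO hwO' hx
    have h6 : ι x = z * (1 - ι w * v) := by
      rw [hv]
      field_simp
      ring
    have h7 : (ι x)⁻¹ ∉ O := by
      intro h8
      apply hz'
      have h9 : z⁻¹ = (ι x)⁻¹ * (1 - ι w * v) := by
        rw [h6]
        field_simp
      rw [h9]
      exact mul_mem h8 h3
    have h8 := Cplk88.div_mem hwO hwO' hval' x (Or.inr h7)
    have h9 : z / ι w = ι x / ι w * (1 - ι w * v)⁻¹ := by
      rw [h6]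
      field_simp
    rw [h9]
    exact mul_mem h8 h4
  have hloc : UD.LocW L O (ι w) := locw (ι w) hwO hwO' hunif
  have h2K : (2 : K) ≠ 0 := two_ne_zero
  have h2L : (2 : L) ≠ 0 := by
    intro h
    apply h2
    rw [h, _root_.inv_zero]
    exact O.zero_mem
  obtain ⟨n, -, hn1, hn2⟩ := hval 2 h2K
  have h2w : (2 : K) / w ∈ OP := by
    rw [hOPm]
    have := (hdvd 2).2 hP2
    rw [map_ofNat] at this
    exact this
  have hn : 1 ≤ n := by
    by_contra hc
    obtain ⟨k, hk⟩ : ∃ k : ℕ, n = -(k : ℤ) := ⟨n.natAbs, by omega⟩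
    apply hu3
    have e1 : w⁻¹ = (2 / w) * ((2 / w ^ n)⁻¹) * w ^ k := by
      rw [hk, zpow_neg, zpow_natCast]
      field_simp
    rw [e1]
    exact mul_mem (mul_mem h2w hn2) (pow_mem hu2 k)
  obtain ⟨e, he⟩ : ∃ e : ℕ, n = (e : ℤ) := ⟨n.toNat, by omega⟩
  rw [he, zpow_natCast] at hn1 hn2
  have he1 : 1 ≤ e := by omega
  have e2 : ι (2 / w ^ e) = 2 / ι w ^ e := by
    rw [map_div₀, map_pow, map_ofNat]
  refine ⟨P, ι w, e, ⟨hloc, h2L, ⟨?_, ?_⟩, he1, hC.complete, hC.fin⟩, hmemR, ?_, ?_⟩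
  · rw [← e2]
    exact hA _ ((hOPm _).1 hn1)
  · rw [← e2, ← map_inv₀]
    exact hA _ ((hOPm _).1 hn2)
  · obtain ⟨m, hm, a, ha⟩ := (hOPm _).1 hn1
    have h5 : m * 2 = a * ϖ ^ e := by
      apply IsFractionRing.injective (𝓞 K) K
      rw [map_mul, map_mul, map_pow, map_ofNat, ← ha, ← hw]
      field_simp
    have h6 : m * 2 ∈ P.asIdeal ^ e := by
      rw [h5]
      exact Ideal.mul_mem_left _ _ (Ideal.pow_mem_pow hϖ1 e)
    have := P.isPrime
    exact (Ideal.IsPrime.mul_mem_pow P.asIdeal h6).resolve_left hm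
  · unfold qq Nm
    let φ : 𝓞 K →+* O := (ι.comp (algebraMap (𝓞 K) K)).codRestrict O.toSubring
      (fun a => IRL61.int_mem a)
    have hφ : ∀ a, ((φ a : O) : L) = ι (algebraMap (𝓞 K) K a) := fun a => rfl
    let ψ : 𝓞 K →+* IsLocalRing.ResidueField O := (IsLocalRing.residue O).comp φ
    have hker : RingHom.ker ψ = P.asIdeal := by
      ext a
      rw [RingHom.mem_ker, RingHom.comp_apply, IsLocalRing.residue_eq_zero_iff, hmem a,
        ← hφ a]
      exact ValuationSubring.valuation_lt_one_iff O (φ a)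
    have hsurj : Function.Surjective ψ := by
      intro r
      obtain ⟨z, rfl⟩ := IsLocalRing.residue_surjective r
      obtain ⟨x, hx⟩ := hC.dense z (ι w) hι0
      have hxO : ι x ∈ O := by
        have e1 : ι x = z - ι w * ((z - ι x) / ι w) := by
          field_simp
          ring
        rw [e1]
        exact O.sub_mem z.2 (mul_mem hwO hx)
      obtain ⟨a, ha⟩ := hres x (hB x hxO)
      refine ⟨a, ?_⟩
      have h3 := hA _ ha
      rw [map_div₀, map_sub] at h3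
      change IsLocalRing.residue O (φ a) = _
      rw [← sub_eq_zero, ← map_sub, IsLocalRing.residue_eq_zero_iff]
      have h4 : (((φ a : O) - z : O) : L) = ι w * (-((z - ι x) / ι w) -
          ((ι x - ι (algebraMap (𝓞 K) K a)) / ι w)) := by
        change ((φ a : O) : L) - (z : L) = _
        rw [hφ a]
        field_simp
        ring
      refine (ValuationSubring.valuation_lt_one_iff O _).2 ?_
      rw [h4, map_mul]
      refine mul_lt_one_of_lt_of_le hwlt ((ValuationSubring.valuation_le_one_iff O _).2 ?_)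
      exact O.sub_mem (neg_mem hx) h3
    have h7 := Nat.card_congr (RingHom.quotientKerEquivOfSurjective hsurj).toEquiv
    rw [← h7, hker]

end Pool.PNF
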