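import Pool.Agent.H53.PNF.D

/-!
# PNF, row DYI: the index of the classes of divisors
-/

set_option autoImplicit false

namespace Pool.PNF

open Polynomial NumberField IsDedekindDomain Pool.HYP Pool.TOW Pool.AVS Pool.T1 Pool.NF Pool.PRK

namespace DYI2

variable {L : Type} [Field L] (f : L[X])

/-- The class of a divisor, in the algebra. -/
def LA (a : AdjoinRoot f) : Prop :=
  ∃ (u w : L[X]) (σ : AdjoinRoot f), u.Monic ∧ IsCoprime u f ∧ u ∣ w ^ 2 - f ∧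
    AdjoinRoot.mk f ((-1) ^ u.natDegree * u) = a * σ ^ 2

theorem locA (p : L[X]) : LocSol f p ↔ LA f (AdjoinRoot.mk f p) := by
  constructor
  · rintro ⟨u, w, s, h1, h2, h3, h4⟩
    refine ⟨u, w, AdjoinRoot.mk f s, h1, h2, h3, ?_⟩
    rw [← map_pow, ← map_mul, AdjoinRoot.mk_eq_mk]
    exact h4
  · rintro ⟨u, w, σ, h1, h2, h3, h4⟩
    obtain ⟨s, rfl⟩ := AdjoinRoot.mk_surjective σ
    refine ⟨u, w, s, h1, h2, h3, ?_⟩
    rw [← map_pow, ← map_mul, AdjoinRoot.mk_eq_mk] at h4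
    exact h4

theorem la_sq {a b : AdjoinRoot f} (h : LA f (a * b ^ 2)) : LA f a := by
  obtain ⟨u, w, σ, h1, h2, h3, h4⟩ := h
  exact ⟨u, w, b * σ, h1, h2, h3, by rw [h4]; ring⟩

theorem la_one : LA f 1 :=
  ⟨1, 0, 1, monic_one, isCoprime_one_left, one_dvd _, by simp⟩

theorem la_mul (hMUL : MULStmt) (hm : f.Monic) (hd : f.natDegree = 3) (hi : Irreducible f)
    {a b : AdjoinRoot f} (ha : LA f a) (hb : LA f b) : LA f (a * b) := by
  obtain ⟨p, rfl⟩ := AdjoinRoot.mk_surjective a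
  obtain ⟨q, rfl⟩ := AdjoinRoot.mk_surjective b
  rw [← map_mul, ← locA]
  exact hMUL L f p q hm hd hi ((locA f p).2 ha) ((locA f q).2 hb)

/-- A polynomial prime to `f` is a unit. -/
theorem unit_of {p : L[X]} (h : IsCoprime p f) :
    ∃ u : (AdjoinRoot f)ˣ, AdjoinRoot.mk f p = (u : AdjoinRoot f) := by
  obtain ⟨a, b, hab⟩ := h
  have h1 : AdjoinRoot.mk f p * AdjoinRoot.mk f a = 1 := by
    rw [← map_mul, ← map_one (AdjoinRoot.mk f), AdjoinRoot.mk_eq_mk]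
    exact ⟨-b, by linear_combination hab⟩
  exact ⟨Units.mkOfMulEqOne _ _ h1, rfl⟩

theorem cop_of {p : L[X]} {u : (AdjoinRoot f)ˣ} (h : AdjoinRoot.mk f p = (u : AdjoinRoot f)) :
    IsCoprime p f := by
  obtain ⟨a, ha⟩ := AdjoinRoot.mk_surjective ((u⁻¹ : (AdjoinRoot f)ˣ) : AdjoinRoot f)
  have h1 : AdjoinRoot.mk f (p * a) = AdjoinRoot.mk f 1 := by
    rw [map_mul, h, ha, map_one, Units.mul_inv]
  rw [AdjoinRoot.mk_eq_mk] at h1
  obtain ⟨r, hr⟩ := h1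
  exact ⟨a, -r, by linear_combination hr⟩

theorem mem_sq (v : (AdjoinRoot f)ˣ) : v ^ 2 ∈ SqG f := ⟨v, rfl⟩

/-- The classes of divisors. -/
def JS (hMUL : MULStmt) (hm : f.Monic) (hd : f.natDegree = 3) (hi : Irreducible f) :
    Subgroup ((AdjoinRoot f)ˣ ⧸ SqG f) where
  carrier := {ξ | ∃ u : (AdjoinRoot f)ˣ, (QuotientGroup.mk u : (AdjoinRoot f)ˣ ⧸ SqG f) = ξ ∧
    LA f (u : AdjoinRoot f)}
  mul_mem' := by
    rintro _ _ ⟨u, rfl, hu⟩ ⟨v, rfl, hv⟩
    exact ⟨u * v, rfl, by rw [Units.val_mul]; exact la_mul f hMUL hm hd hi hu hv⟩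
  one_mem' := ⟨1, rfl, by rw [Units.val_one]; exact la_one f⟩
  inv_mem' := by
    rintro _ ⟨u, rfl, hu⟩
    refine ⟨u, ?_, hu⟩
    rw [← QuotientGroup.mk_inv, QuotientGroup.eq]
    have : u⁻¹ * u⁻¹ = u⁻¹ ^ 2 := by rw [pow_two]
    rw [this]
    exact mem_sq f _

/-- The classes of square norm. -/
def NS : Subgroup ((AdjoinRoot f)ˣ ⧸ SqG f) where
  carrier := NsS f
  mul_mem' := by
    rintro _ _ ⟨u, p, rfl, hu, hp⟩ ⟨v, q, rfl, hv, hq⟩
    refine ⟨u * v, p * q, rfl, by rw [map_mul, hu, hv, Units.val_mul], ?_⟩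
    unfold NSq at hp hq ⊢
    rw [map_mul, map_mul]
    exact hp.mul hq
  one_mem' := ⟨1, 1, rfl, by rw [map_one, Units.val_one], by
    unfold NSq
    rw [map_one, map_one]
    exact IsSquare.one⟩
  inv_mem' := by
    rintro _ ⟨u, p, rfl, hu, hp⟩
    refine ⟨u, p, ?_, hu, hp⟩
    rw [← QuotientGroup.mk_inv, QuotientGroup.eq]
    have : u⁻¹ * u⁻¹ = u⁻¹ ^ 2 := by rw [pow_two]
    rw [this]
    exact mem_sq f _

end DYI2

open DYI2 in
/-- **DYI.** -/
theorem dyi (hNSC : NSCStmt) (hLSC : LSCStmt) (hMUL : MULStmt) : DYIStmt := by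
  classical
  intro L _ O π e hD f₀ hf
  obtain ⟨f, hff⟩ : ∃ f : L[X], f = oL O f₀ := ⟨_, rfl⟩
  obtain ⟨hfin, hcard⟩ := hNSC L O π e hD f₀ hf
  obtain ⟨p, hp, hpi⟩ := hLSC L O π e hD f₀ hf
  rw [← hff] at hfin hcard hp hpi ⊢
  have hir : Irreducible f := by
    rw [hff]
    have h1 : Irreducible f₀ := Polynomial.Monic.irreducible_of_irreducible_map _ _ hf.1 hf.2.2
    exact (hf.1.irreducible_iff_irreducible_map_fraction_map (K := L)).1 h1
  have hm : f.Monic := by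
    rw [hff]
    exact hf.1.map _
  have hd : f.natDegree = 3 := by
    rw [hff]
    unfold oL
    rw [hf.1.natDegree_map]
    exact hf.2.1
  have hfinN : Finite (NS f) := hfin
  have hcardN : Nat.card (NS f) ≤ qq O ^ (2 * e) := hcard
  obtain ⟨J, hJ⟩ : ∃ J : Subgroup ((AdjoinRoot f)ˣ ⧸ SqG f), J = JS f hMUL hm hd hir :=
    ⟨_, rfl⟩
  have hJm : ∀ ξ, ξ ∈ J ↔ ∃ u : (AdjoinRoot f)ˣ,
      (QuotientGroup.mk u : (AdjoinRoot f)ˣ ⧸ SqG f) = ξ ∧ LA f (u : AdjoinRoot f) := by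
    intro ξ
    rw [hJ]
    rfl
  have hq : 1 ≤ qq O := by
    unfold qq
    have := hD.fin
    exact Nat.card_pos
  have hqe : 0 < qq O ^ e := pow_pos hq e
  -- the points
  have hlow : qq O ^ e ≤ Nat.card (J.subgroupOf (NS f)) := by
    choose u hu using fun i => unit_of f (hp i).1
    let F : Fin (qq O ^ e) → J.subgroupOf (NS f) := fun i =>
      ⟨⟨QuotientGroup.mk (u i), ⟨u i, p i, rfl, hu i, (hp i).2.1⟩⟩, by
        rw [Subgroup.mem_subgroupOf, hJm]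
        refine ⟨u i, rfl, ?_⟩
        rw [← hu i, ← locA]
        exact (hp i).2.2⟩
    have hF : Function.Injective F := by
      intro i j hij
      have h1 : (QuotientGroup.mk (u i) : (AdjoinRoot f)ˣ ⧸ SqG f) = QuotientGroup.mk (u j) :=
        congrArg (fun z : J.subgroupOf (NS f) => ((z : NS f) : (AdjoinRoot f)ˣ ⧸ SqG f)) hij
      apply hpi i j
      have h2 := QuotientGroup.eq.1 h1.symm
      obtain ⟨v, hv⟩ := h2
      have hv' : v ^ 2 = (u j)⁻¹ * u i := hv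
      obtain ⟨s, hs⟩ := AdjoinRoot.mk_surjective (v : AdjoinRoot f)
      refine ⟨s, cop_of f hs, ?_⟩
      rw [← AdjoinRoot.mk_eq_mk, map_mul, map_pow, hs, hu i, hu j, ← Units.val_pow_eq_pow_val,
        ← Units.val_mul, hv', mul_inv_cancel_left]
    have hfinJ : Finite (J.subgroupOf (NS f)) := inferInstance
    have h3 := Nat.card_le_card_of_injective F hF
    rw [Nat.card_fin] at h3
    exact h3
  have hidx : (J.subgroupOf (NS f)).index ≤ qq O ^ e := by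
    have h1 := Subgroup.card_mul_index (J.subgroupOf (NS f))
    have h2 : Nat.card (J.subgroupOf (NS f)) * (J.subgroupOf (NS f)).index ≤
        qq O ^ e * qq O ^ e := by
      rw [h1]
      refine hcardN.trans (le_of_eq ?_)
      ring
    by_contra hc
    rw [not_le] at hc
    have h3 : qq O ^ e * qq O ^ e <
        Nat.card (J.subgroupOf (NS f)) * (J.subgroupOf (NS f)).index :=
      lt_of_lt_of_le (Nat.mul_lt_mul_of_pos_left hc hqe) (Nat.mul_le_mul_right _ hlow)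
    omega
  have hfinQ : Finite (NS f ⧸ J.subgroupOf (NS f)) := inferInstance
  obtain ⟨E, hE⟩ : ∃ E : (NS f ⧸ J.subgroupOf (NS f)) → Fin (qq O ^ e),
      Function.Injective E := by
    have h1 : Nat.card (NS f ⧸ J.subgroupOf (NS f)) ≤ Nat.card (Fin (qq O ^ e)) := by
      rw [Nat.card_fin]
      exact hidx
    have := Fintype.ofFinite (NS f ⧸ J.subgroupOf (NS f))
    rw [Nat.card_eq_fintype_card, Nat.card_eq_fintype_card] at h1
    obtain ⟨E⟩ := Function.Embedding.nonempty_of_card_le h1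
    exact ⟨E, E.injective⟩
  refine ⟨fun r => if h : IsCoprime r f ∧ NSq f r then
    E (QuotientGroup.mk ⟨QuotientGroup.mk (unit_of f h.1).choose,
      ⟨(unit_of f h.1).choose, r, rfl, (unit_of f h.1).choose_spec, h.2⟩⟩) else ⟨0, hqe⟩, ?_⟩
  intro r t hr1 hr2 ht1 ht2 heq
  have hr : IsCoprime r f ∧ NSq f r := ⟨hr1, hr2⟩
  have ht : IsCoprime t f ∧ NSq f t := ⟨ht1, ht2⟩
  simp only [dif_pos hr, dif_pos ht] at heq
  have h1 := QuotientGroup.eq.1 (hE heq)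
  rw [Subgroup.mem_subgroupOf, hJm] at h1
  obtain ⟨w, hw1, hw2⟩ := h1
  obtain ⟨u, hu⟩ : ∃ u, u = (unit_of f hr.1).choose := ⟨_, rfl⟩
  obtain ⟨v, hv⟩ : ∃ v, v = (unit_of f ht.1).choose := ⟨_, rfl⟩
  have hu' : AdjoinRoot.mk f r = (u : AdjoinRoot f) := by
    rw [hu]
    exact (unit_of f hr.1).choose_spec
  have hv' : AdjoinRoot.mk f t = (v : AdjoinRoot f) := by
    rw [hv]
    exact (unit_of f ht.1).choose_spec
  have h2 : (QuotientGroup.mk w : (AdjoinRoot f)ˣ ⧸ SqG f) = QuotientGroup.mk (u⁻¹ * v) := by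
    rw [hw1, hu, hv]
    rfl
  obtain ⟨z, hz⟩ := QuotientGroup.eq.1 h2.symm
  have hz' : z ^ 2 = (u⁻¹ * v)⁻¹ * w := hz
  rw [locA, map_mul, hu', hv', ← Units.val_mul]
  have h3 : ((w : (AdjoinRoot f)ˣ) : AdjoinRoot f) =
      ((u * v : (AdjoinRoot f)ˣ) : AdjoinRoot f) * ((u⁻¹ * z : (AdjoinRoot f)ˣ) :
        AdjoinRoot f) ^ 2 := by
    rw [← Units.val_pow_eq_pow_val, ← Units.val_mul, mul_pow, hz', mul_inv, inv_inv, pow_two]
    congr 1
    have h4 : u * v * (u⁻¹ * u⁻¹ * (u * v⁻¹ * w)) = (u * u⁻¹) * (u⁻¹ * u) * (v * v⁻¹) * w := by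
      ac_rfl
    rw [h4, mul_inv_cancel, inv_mul_cancel, mul_inv_cancel, one_mul, one_mul, one_mul]
  rw [h3] at hw2
  exact la_sq f hw2

end Pool.PNF
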