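import Pool.Agent.H53.PNF.D

/-!
# PNF, row IR3: irreducibility
-/

set_option autoImplicit false

namespace Pool.PNF

open Polynomial NumberField IsDedekindDomain Pool.HYP Pool.TOW Pool.AVS Pool.T1 Pool.NF Pool.PRK

/-- **IR3.** -/
theorem ir3 : IR3Stmt := by
  intro L _ O f₀ hf
  obtain ⟨hm, -, hi⟩ := hf
  have h1 : Irreducible f₀ := Polynomial.Monic.irreducible_of_irreducible_map _ _ hm hi
  exact (hm.irreducible_iff_irreducible_map_fraction_map (K := L)).1 h1

end Pool.PNF
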